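import Pool.Agent.Lib.MP_7685df_co.Main

set_option autoImplicit false

namespace Pool.Agent.Results.MP_7685df_co.AlmostAll

open Filter Topology

/-- The number of independent sets of size `i` of a matroid on `Fin m`. -/
noncomputable def F {m : ℕ} (M : Matroid (Fin m)) (i : ℕ) : ℕ :=
  Nat.card {I : Finset (Fin m) // M.Indep (I : Set (Fin m)) ∧ I.card = i}

/-- The value at `q` of the reliability polynomial of a matroid on `Fin m`. -/
noncomputable def Rel {m : ℕ} (M : Matroid (Fin m)) (q : ℂ) : ℂ :=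
  ∑ i ∈ Finset.range (m + 1), (F M i : ℂ) * q ^ i * (1 - q) ^ (m - i)

open Pool.Agent.Lib.MP_7685df_co in
theorem rel_eq {m : ℕ} (M : Matroid (Fin m)) (z : ℂ) :
    Rel M z = ∑ I ∈ ind (rkOf M) Finset.univ, z ^ I.card * (1 - z) ^ (m - I.card) := by
  unfold Rel
  rw [← Finset.sum_fiberwise_of_maps_to (g := Finset.card) (t := Finset.range (m + 1))
    (fun I _ => by
      have := Finset.card_le_univ I
      rw [Fintype.card_fin] at this
      exact Finset.mem_range.mpr (by omega))]
  apply Finset.sum_congr rfl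
  intro i _
  rw [Finset.sum_congr rfl (g := fun _ => z ^ i * (1 - z) ^ (m - i))
    (fun I hI => by rw [(Finset.mem_filter.mp hI).2]), Finset.sum_const, nsmul_eq_mul, mul_assoc]
  congr 2
  unfold F
  rw [← Nat.card_eq_finsetCard]
  apply Nat.card_congr
  apply Equiv.subtypeEquivRight
  intro I
  simp [mem_ind, indep_iff]

/-- The proportion of matroids on `Fin m` all of whose reliability roots lie in the closed unit
disk tends to one. -/
theorem result : Tendsto (fun m : ℕ =>
    (Nat.card {M : Matroid (Fin m) // M.E = Set.univ ∧ ∀ q : ℂ, Rel M q = 0 → ‖q‖ ≤ 1} : ℝ) /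
      (Nat.card {M : Matroid (Fin m) // M.E = Set.univ} : ℝ)) atTop (𝓝 1) :=
  Pool.Agent.Lib.MP_7685df_co.main (fun _ M => ∀ q : ℂ, Rel M q = 0 → ‖q‖ ≤ 1)
    (fun _ M h q hq => h q (rel_eq M q ▸ hq))

end Pool.Agent.Results.MP_7685df_co.AlmostAll
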